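import Pool.Agent.R624.TB.Main
import Pool.Agent.R624.TB.Back
import Pool.Agent.R624.TB.Bf
import Pool.Agent.R624.TB.Ax
import Pool.Agent.R624.TB.Emb
import Pool.Agent.R624.TB.Con1
import Pool.Agent.R624.TB.Inv

/-!
# A complete theory with `2 < B_T(ω) < ω` and uncountably many countable models

Problem MP_683aef_lc, Q1, answered positively: there is a complete theory `T` in a countable
language with infinite models, with exactly three classes of countable models up to mutual
elementary embeddability, and uncountably many countable models up to isomorphism.

The theory: a generic strict partial order with a generic graph on the same set, an up-closed
unary predicate `P`, and down-closed sets `W 0 ⊆ W 1 ⊆ ⋯`.  If a countable model has an element of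
infinite level (outside of all `W n`), then by genericity it has many of them above it, so that
every countable model (all of whose elements of infinite level are in `P`, if those of the given
model are) embeds into it; embeddings are elementary.  So the similarity class only tells whether
there are elements of infinite level, and elements of infinite level outside of `P`.  But the graph
on the minimal elements of infinite level is an arbitrary graph, so that there are uncountably many
countable models.
-/

set_option autoImplicit false

namespace Pool.Agent.Results.MP_683aef_lc.ThreeSimilarityClasses

open R624TB
open FirstOrder Cardinal

/-- There is a complete theory in a countable language with infinite models, whose number of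
similarity classes of countable models is finite and greater than two, and which has uncountably
many countable models up to isomorphism. -/
theorem result : ∃ (L : FirstOrder.Language.{0, 0}) (T : L.Theory),
    Countable (Σ n, L.Functions n) ∧ Countable (Σ n, L.Relations n) ∧ T.IsComplete ∧
    (∀ (M : Type) [L.Structure M] [M ⊨ T], Infinite M) ∧
    2 < numSim T ∧ numSim T < ℵ₀ ∧ ℵ₀ < numIso T :=
  main (s_ee (s_bf s_back)) (s_el (s_bf s_back)) s_ax s_emb s_con s_pri (s_inv s_deg)

end Pool.Agent.Results.MP_683aef_lc.ThreeSimilarityClasses
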